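import Mathlib
import Pool.Agent.LGO.PA.Crit
import Pool.Agent.LGO.H.BdC
import Pool.Agent.Hhelper14.ZP2.Emb

/-!
# LGO/PC: height bounds from local inequalities

`bd_of_loc`: `y, β ∈ K`, `β ≠ 0`, `n` a positive integer, `‖n‖ max 1 ‖φ y‖ ≤ ‖φ β‖` for all primes `p` and all
`φ : ℂ →+* ℂ_[p]`, `max 1 ‖s y‖ ≤ exp M ‖s β‖ ^ k` for all automorphisms `s` of `ℂ`.  Then `Bd K (D (M + k log n)) y`,
`D = [K : ℚ]`.

PROOF.  `χ` the characteristic polynomial of `y` over `ℚ`, `χ = ∏_σ (X - σ y)`, `P ∈ ℤ[X]` primitive and proportional to `χ`, `a` the absolute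
value of its leading coefficient: `a y` is integral, and a coefficient of `P` is a unit at `p`, so
`1 ≤ ‖a‖_p ∏_σ max 1 ‖φ (σ y)‖`.  `r = ∏_σ σ β ∈ ℚ` the norm.  So `‖n ^ D‖_p ≤ ‖a r‖_p` for all `p`, `n ^ D / (a r)` is a nonzero
integer, `a |r| ≤ n ^ D`.  `∏_σ max 1 ‖σ y‖ ≤ exp (D M) |r| ^ k`, so `a ^ k ∏_σ max 1 ‖σ y‖ ≤ exp (D M) n ^ (k D)`.
-/

namespace Pool.Agent.LGO.PC

open Polynomial Pool.Agent.Hhelper14.ZP Pool.Agent.LGO Pool.Agent.LGO.PA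

/-- the characteristic polynomial -/
theorem BdLoc_char (K : IntermediateField ℚ ℂ) [FiniteDimensional ℚ K] (w : K) :
    ∃ χ : ℚ[X], χ.Monic ∧ aeval (w : ℂ) χ = 0 ∧
      χ.map (algebraMap ℚ ℂ) = ∏ σ : K →ₐ[ℚ] ℂ, (X - C (σ w)) := by
  refine ⟨(Algebra.lmul ℚ K w).charpoly, LinearMap.charpoly_monic _, ?_, ?_⟩
  · have h1 := LinearMap.aeval_self_charpoly (Algebra.lmul ℚ K w)
    have h2 : Algebra.lmul ℚ K (aeval w (Algebra.lmul ℚ K w).charpoly) = 0 := by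
      rw [← aeval_algHom_apply]
      exact h1
    have h3 : aeval w (Algebra.lmul ℚ K w).charpoly = 0 := by
      have h4 := congrArg (fun f : Module.End ℚ K => f 1) h2
      simpa using h4
    have h5 := congrArg (algebraMap K ℂ) h3
    rw [map_zero, ← aeval_algebraMap_apply] at h5
    exact h5
  · refine eq_of_infinite_eval_eq _ _ (Set.Infinite.mono ?_
      (Set.infinite_range_of_injective (f := fun m : ℕ => (m : ℂ)) Nat.cast_injective))
    rintro _ ⟨m, rfl⟩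
    change eval (m : ℂ) _ = eval (m : ℂ) _
    have h1 : eval (m : ℂ) ((Algebra.lmul ℚ K w).charpoly.map (algebraMap ℚ ℂ)) =
        algebraMap ℚ ℂ (eval (m : ℚ) (Algebra.lmul ℚ K w).charpoly) := by
      have h2 : (m : ℂ) = algebraMap ℚ ℂ (m : ℚ) := by simp
      rw [h2, eval_map_algebraMap, aeval_algebraMap_apply]
      simp
    have h3 : eval (m : ℚ) (Algebra.lmul ℚ K w).charpoly = Algebra.norm ℚ ((m : K) - w) := by
      rw [LinearMap.eval_charpoly, Algebra.norm_apply]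
      congr 1
      rw [map_sub]
      congr 1
    rw [h1, h3, Algebra.norm_eq_prod_embeddings ℚ ℂ, eval_prod]
    refine Finset.prod_congr rfl fun σ _ => ?_
    simp

/-- a primitive integral polynomial proportional to a monic one -/
theorem BdLoc_prim {χ : ℚ[X]} (hχ : χ.Monic) : ∃ P : ℤ[X], P.IsPrimitive ∧
    P.map (algebraMap ℤ ℚ) = C ((P.leadingCoeff : ℤ) : ℚ) * χ := by
  obtain ⟨b, hbm, hb⟩ := IsLocalization.integerNormalization_spec (nonZeroDivisors ℤ) χ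
  have hb0 : ((b : ℤ) : ℚ) ≠ 0 := by
    have := nonZeroDivisors.ne_zero hbm
    exact_mod_cast this
  have hsm : b • χ = C ((b : ℤ) : ℚ) * χ := by
    ext n
    simp
  set Q := IsLocalization.integerNormalization (nonZeroDivisors ℤ) χ with hQ
  have hQ0 : Q ≠ 0 := by
    intro h
    rw [h, Polynomial.map_zero] at hb
    have h1 := congrArg leadingCoeff hb
    rw [leadingCoeff_zero] at h1
    have h3 : (0 : ℚ) = ((b : ℤ) : ℚ) := by
      rw [h1, hsm, leadingCoeff_mul, leadingCoeff_C, hχ.leadingCoeff, mul_one]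
    exact hb0 h3.symm
  refine ⟨Q.primPart, Q.isPrimitive_primPart, ?_⟩
  have hc0 : ((Q.content : ℤ) : ℚ) ≠ 0 := by
    have : Q.content ≠ 0 := by rwa [Ne, content_eq_zero_iff]
    exact_mod_cast this
  have h1 : C ((Q.content : ℤ) : ℚ) * Q.primPart.map (algebraMap ℤ ℚ) = C ((b : ℤ) : ℚ) * χ := by
    have h2 : Q.map (algebraMap ℤ ℚ) = C ((b : ℤ) : ℚ) * χ := by
      rw [hb, hsm]
    rw [← h2]
    conv_rhs => rw [Q.eq_C_content_mul_primPart, Polynomial.map_mul, map_C]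
    simp
  have h3 : Q.primPart.map (algebraMap ℤ ℚ) = C (((Q.content : ℤ) : ℚ)⁻¹ * ((b : ℤ) : ℚ)) * χ := by
    rw [map_mul, mul_assoc, ← h1, ← mul_assoc, ← map_mul, inv_mul_cancel₀ hc0, map_one, one_mul]
  have h4 : ((Q.primPart.leadingCoeff : ℤ) : ℚ) = ((Q.content : ℤ) : ℚ)⁻¹ * ((b : ℤ) : ℚ) := by
    have h5 := congrArg leadingCoeff h3
    rw [leadingCoeff_mul, leadingCoeff_C, hχ.leadingCoeff, mul_one,
      leadingCoeff_map_of_injective (RingHom.injective_int (algebraMap ℤ ℚ))] at h5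
    simpa using h5
  rw [h4]
  exact h3

/-- coefficients of a product of linear factors -/
theorem BdLoc_coeff {p : ℕ} [Fact p.Prime] {ι : Type*} (s : Finset ι) (a : ι → ℂ_[p]) :
    ∀ k, ‖(∏ i ∈ s, (X - C (a i))).coeff k‖ ≤ ∏ i ∈ s, max 1 ‖a i‖ := by
  classical
  induction s using Finset.induction_on with
  | empty =>
    intro k
    rw [Finset.prod_empty, Finset.prod_empty, coeff_one]
    split_ifs <;> simp
  | insert i s hi ih =>
    intro k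
    rw [Finset.prod_insert hi, Finset.prod_insert hi, sub_mul, coeff_sub, coeff_C_mul]
    have h0 : (0 : ℝ) ≤ ∏ j ∈ s, max 1 ‖a j‖ :=
      Finset.prod_nonneg fun j _ => zero_le_one.trans (le_max_left _ _)
    have h1 : ‖(X * ∏ j ∈ s, (X - C (a j))).coeff k‖ ≤ max 1 ‖a i‖ * ∏ j ∈ s, max 1 ‖a j‖ := by
      have h2 : ‖(X * ∏ j ∈ s, (X - C (a j))).coeff k‖ ≤ ∏ j ∈ s, max 1 ‖a j‖ := by
        rcases k with _ | k
        · rw [coeff_zero_eq_eval_zero, eval_mul, eval_X, zero_mul, norm_zero]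
          exact h0
        · rw [coeff_X_mul]
          exact ih k
      exact h2.trans (le_mul_of_one_le_left h0 (le_max_left _ _))
    have h3 : ‖a i * (∏ j ∈ s, (X - C (a j))).coeff k‖ ≤ max 1 ‖a i‖ * ∏ j ∈ s, max 1 ‖a j‖ := by
      rw [norm_mul]
      exact mul_le_mul (le_max_right _ _) (ih k) (norm_nonneg _)
        (zero_le_one.trans (le_max_left _ _))
    rw [sub_eq_add_neg]
    refine (IsUltrametricDist.norm_add_le_max _ _).trans (max_le h1 ?_)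
    rw [norm_neg]
    exact h3

/-- **the denominator of a number**: a positive integer `a` with `a y` integral which is at every prime at most the product of the
sizes of the conjugates of `y` -/
theorem exists_den (K : IntermediateField ℚ ℂ) [FiniteDimensional ℚ K] (w : K) :
    ∃ a : ℕ, 0 < a ∧ IsIntegral ℤ ((a : ℂ) * (w : ℂ)) ∧
      ∀ (p : ℕ) [Fact p.Prime] (φ : ℂ →+* ℂ_[p]),
        1 ≤ ‖(a : ℂ_[p])‖ * ∏ σ : K →ₐ[ℚ] ℂ, max 1 ‖φ (σ w)‖ := by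
  obtain ⟨χ, hmon, hroot, hprod⟩ := BdLoc_char K w
  obtain ⟨P, hP, hPχ⟩ := BdLoc_prim hmon
  have hP0 : P ≠ 0 := hP.ne_zero
  have hl0 : P.leadingCoeff ≠ 0 := leadingCoeff_ne_zero.2 hP0
  refine ⟨P.leadingCoeff.natAbs, Int.natAbs_pos.2 hl0, ?_, ?_⟩
  · have h1 : aeval (w : ℂ) P = 0 := by
      rw [← aeval_map_algebraMap ℚ, hPχ, map_mul, hroot, mul_zero]
    have h2 := isIntegral_leadingCoeff_smul P (w : ℂ) h1
    have h3 : P.leadingCoeff • (w : ℂ) = (P.leadingCoeff : ℂ) * w := by simp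
    rw [h3] at h2
    rcases Int.natAbs_eq P.leadingCoeff with h | h
    · have h4 : ((P.leadingCoeff.natAbs : ℕ) : ℂ) = (P.leadingCoeff : ℂ) := by
        conv_rhs => rw [h]
        simp
      rw [h4]
      exact h2
    · have h4 : ((P.leadingCoeff.natAbs : ℕ) : ℂ) = -(P.leadingCoeff : ℂ) := by
        conv_rhs => rw [h]
        simp
      rw [h4, neg_mul]
      exact h2.neg
  · intro p _ φ
    have hp := Fact.out (p := p.Prime)
    -- a coefficient prime to `p`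
    obtain ⟨k, hk⟩ : ∃ k, ¬ (p : ℤ) ∣ P.coeff k := by
      by_contra hcon
      push Not at hcon
      have h1 : C (p : ℤ) ∣ P := by
        rw [C_dvd_iff_dvd_coeff]
        exact hcon
      have h2 := hP (p : ℤ) h1
      rw [Int.isUnit_iff] at h2
      rcases h2 with h2 | h2
      · have : p = 1 := by exact_mod_cast h2
        exact hp.one_lt.ne' this
      · have : (0 : ℤ) ≤ (p : ℤ) := Int.natCast_nonneg p
        omega
    have h1 : ‖((P.coeff k : ℤ) : ℂ_[p])‖ = 1 := by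
      refine le_antisymm (norm_intCast_le _) (not_lt.1 fun h => hk ?_)
      rw [norm_intCast_eq, Padic.norm_intCast_lt_one_iff] at h
      exact h
    have h2 : ((P.coeff k : ℤ) : ℚ) = ((P.leadingCoeff : ℤ) : ℚ) * χ.coeff k := by
      have h3 := congrArg (fun q : ℚ[X] => q.coeff k) hPχ
      simp only [coeff_map, coeff_C_mul] at h3
      simpa using h3
    have h3 : ((P.coeff k : ℤ) : ℂ_[p]) = (P.leadingCoeff : ℂ_[p]) * φ ((χ.coeff k : ℚ) : ℂ) := by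
      have h4 := congrArg (fun q : ℚ => (q : ℂ_[p])) h2
      simp only [Rat.cast_intCast, Rat.cast_mul] at h4
      rw [h4, map_ratCast]
    have h4 : ‖φ ((χ.coeff k : ℚ) : ℂ)‖ ≤ ∏ σ : K →ₐ[ℚ] ℂ, max 1 ‖φ (σ w)‖ := by
      have h5 : φ ((χ.coeff k : ℚ) : ℂ) = (∏ σ : K →ₐ[ℚ] ℂ, (X - C (φ (σ w)))).coeff k := by
        have h6 := congrArg (fun q : ℂ[X] => (q.map φ).coeff k) hprod
        simp only [coeff_map, Polynomial.map_prod, Polynomial.map_sub, map_X, map_C] at h6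
        rw [← h6]
        rfl
      rw [h5]
      exact BdLoc_coeff _ _ _
    have h5 : ‖((P.leadingCoeff.natAbs : ℕ) : ℂ_[p])‖ = ‖(P.leadingCoeff : ℂ_[p])‖ := by
      rcases Int.natAbs_eq P.leadingCoeff with h | h
      · conv_rhs => rw [h]
        simp
      · conv_rhs => rw [h]
        simp
    rw [h5]
    calc (1 : ℝ) = ‖((P.coeff k : ℤ) : ℂ_[p])‖ := h1.symm
      _ = ‖(P.leadingCoeff : ℂ_[p])‖ * ‖φ ((χ.coeff k : ℚ) : ℂ)‖ := by rw [h3, norm_mul]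
      _ ≤ _ := mul_le_mul_of_nonneg_left h4 (norm_nonneg _)

/-- **height bounds from local inequalities** -/
theorem bd_of_loc (K : IntermediateField ℚ ℂ) [FiniteDimensional ℚ K] {y β : ℂ} (hy : y ∈ K)
    (hβ : β ∈ K) (hβ0 : β ≠ 0) {n : ℕ} (hn : 0 < n) {M : ℝ} {k : ℕ} (hk : 0 < k)
    (hfin : ∀ (p : ℕ) [Fact p.Prime] (φ : ℂ →+* ℂ_[p]), ‖(n : ℂ_[p])‖ * max 1 ‖φ y‖ ≤ ‖φ β‖)
    (hinf : ∀ s : ℂ ≃+* ℂ, max 1 ‖s y‖ ≤ Real.exp M * ‖s β‖ ^ k) :
    Bd K (Module.finrank ℚ K * (M + k * Real.log n)) y := by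
  classical
  set w : K := ⟨y, hy⟩ with hw
  set b : K := ⟨β, hβ⟩ with hb
  obtain ⟨a, ha, hint, hloc⟩ := exists_den K w
  set D := Module.finrank ℚ K with hD
  have hcard : Fintype.card (K →ₐ[ℚ] ℂ) = D := AlgHom.card ℚ K ℂ
  have hb0 : b ≠ 0 := by
    intro e
    apply hβ0
    have := congrArg (fun z : K => (z : ℂ)) e
    simpa [hb] using this
  -- the norm of `β`
  set r : ℚ := Algebra.norm ℚ b with hr
  have hr0 : r ≠ 0 := by
    rw [hr, Ne, Algebra.norm_eq_zero_iff]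
    exact hb0
  have hprod : (r : ℂ) = ∏ σ : K →ₐ[ℚ] ℂ, σ b := Algebra.norm_eq_prod_embeddings ℚ ℂ b
  -- automorphisms of `ℂ`
  have haut : ∀ σ : K →ₐ[ℚ] ℂ, ∃ s : ℂ ≃+* ℂ, s y = σ w ∧ s β = σ b := by
    intro σ
    obtain ⟨s, hs⟩ := exists_aut K (σ : K →+* ℂ)
    exact ⟨s, hs w, hs b⟩
  -- the finite places
  have h1 : ∀ (p : ℕ) [Fact p.Prime] (φ : ℂ →+* ℂ_[p]),
      ‖(n : ℂ_[p])‖ ^ D ≤ ‖(a : ℂ_[p])‖ * ‖(r : ℂ_[p])‖ := by
    intro p _ φ
    have h2 : ‖(n : ℂ_[p])‖ ^ D * ∏ σ : K →ₐ[ℚ] ℂ, max 1 ‖φ (σ w)‖ ≤ ‖(r : ℂ_[p])‖ := by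
      have h3 : (r : ℂ_[p]) = ∏ σ : K →ₐ[ℚ] ℂ, φ (σ b) := by
        rw [← map_prod, ← hprod, map_ratCast]
      rw [h3, norm_prod, ← hcard, ← Finset.card_univ, ← Finset.prod_const,
        ← Finset.prod_mul_distrib]
      refine Finset.prod_le_prod (fun σ _ => mul_nonneg (norm_nonneg _)
        (zero_le_one.trans (le_max_left _ _))) fun σ _ => ?_
      obtain ⟨s, hs1, hs2⟩ := haut σ
      have h4 := hfin p (φ.comp (s : ℂ →+* ℂ))
      have e1 : (φ.comp (s : ℂ →+* ℂ)) y = φ (σ w) := by rw [← hs1]; rfl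
      have e2 : (φ.comp (s : ℂ →+* ℂ)) β = φ (σ b) := by rw [← hs2]; rfl
      rwa [e1, e2] at h4
    have h3 := hloc p φ
    calc ‖(n : ℂ_[p])‖ ^ D = ‖(n : ℂ_[p])‖ ^ D * 1 := (mul_one _).symm
      _ ≤ ‖(n : ℂ_[p])‖ ^ D * (‖(a : ℂ_[p])‖ * ∏ σ : K →ₐ[ℚ] ℂ, max 1 ‖φ (σ w)‖) :=
          mul_le_mul_of_nonneg_left h3 (pow_nonneg (norm_nonneg _) _)
      _ = ‖(a : ℂ_[p])‖ * (‖(n : ℂ_[p])‖ ^ D * ∏ σ : K →ₐ[ℚ] ℂ, max 1 ‖φ (σ w)‖) := by ring
      _ ≤ ‖(a : ℂ_[p])‖ * ‖(r : ℂ_[p])‖ := mul_le_mul_of_nonneg_left h2 (norm_nonneg _)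
  have ha0 : (a : ℚ) ≠ 0 := by exact_mod_cast ha.ne'
  have hn0 : (n : ℚ) ≠ 0 := by exact_mod_cast hn.ne'
  -- an integer
  obtain ⟨z, hz⟩ : ∃ z : ℤ, (z : ℚ) = (n : ℚ) ^ D / (a * r) := by
    have h2 : IsIntegral ℤ (((n : ℚ) ^ D / (a * r) : ℚ) : ℂ) := by
      refine integral_of_norm_le (isAlgebraic_algebraMap ((n : ℚ) ^ D / (a * r))) ?_
      intro p _ φ
      rw [map_ratCast]
      push_cast
      rw [norm_div, norm_mul, norm_pow]
      have hpos : 0 < ‖(a : ℂ_[p])‖ * ‖(r : ℂ_[p])‖ := by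
        refine mul_pos (norm_pos_iff.2 ?_) (norm_pos_iff.2 ?_)
        · exact_mod_cast ha.ne'
        · exact_mod_cast hr0
      rw [div_le_one hpos]
      exact h1 p φ
    have h3 : IsIntegral ℤ ((n : ℚ) ^ D / (a * r)) := by
      have h4 : IsIntegral ℤ ((algebraMap ℚ ℂ) ((n : ℚ) ^ D / (a * r))) := h2
      exact (isIntegral_algebraMap_iff (algebraMap ℚ ℂ).injective).1 h4
    obtain ⟨z, hz⟩ := IsIntegrallyClosed.isIntegral_iff.1 h3
    exact ⟨z, by rw [← hz]; simp⟩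
  have hz0 : z ≠ 0 := by
    intro e
    rw [e, Int.cast_zero] at hz
    exact (div_ne_zero (pow_ne_zero _ hn0) (mul_ne_zero ha0 hr0)) hz.symm
  have har : (a : ℝ) * |(r : ℝ)| ≤ (n : ℝ) ^ D := by
    have h2 : (1 : ℝ) ≤ |(z : ℝ)| := by exact_mod_cast Int.one_le_abs hz0
    have h3 : (z : ℝ) * (a * r) = (n : ℝ) ^ D := by
      have h4 : (z : ℚ) * (a * r) = (n : ℚ) ^ D := by
        rw [hz]
        field_simp
      exact_mod_cast h4
    have h5 : |(z : ℝ)| * (a * |(r : ℝ)|) = (n : ℝ) ^ D := by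
      have h6 := congrArg abs h3
      have h7 : |(n : ℝ) ^ D| = (n : ℝ) ^ D := abs_of_nonneg (pow_nonneg (Nat.cast_nonneg n) D)
      rw [abs_mul, abs_mul, Nat.abs_cast, h7] at h6
      exact h6
    rw [← h5]
    exact le_mul_of_one_le_left (mul_nonneg (Nat.cast_nonneg _) (abs_nonneg _)) h2
  -- the infinite places
  have hPi : ∏ σ : K →ₐ[ℚ] ℂ, max 1 ‖σ w‖ ≤ Real.exp M ^ D * |(r : ℝ)| ^ k := by
    have h2 : |(r : ℝ)| = ∏ σ : K →ₐ[ℚ] ℂ, ‖σ b‖ := by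
      rw [← norm_prod, ← hprod]
      have h3 : (r : ℂ) = ((r : ℝ) : ℂ) := by push_cast; rfl
      rw [h3, Complex.norm_real, Real.norm_eq_abs]
    rw [h2, ← Finset.prod_pow, ← hcard, ← Finset.card_univ, ← Finset.prod_const,
      ← Finset.prod_mul_distrib]
    refine Finset.prod_le_prod (fun σ _ => zero_le_one.trans (le_max_left _ _)) fun σ _ => ?_
    obtain ⟨s, hs1, hs2⟩ := haut σ
    have h4 := hinf s
    rwa [hs1, hs2] at h4
  have hP1 : ∀ σ : K →ₐ[ℚ] ℂ, max 1 ‖σ w‖ ≤ ∏ σ : K →ₐ[ℚ] ℂ, max 1 ‖σ w‖ := by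
    intro σ
    rw [← Finset.mul_prod_erase Finset.univ _ (Finset.mem_univ σ)]
    have h3 : (1 : ℝ) ≤ ∏ τ ∈ Finset.univ.erase σ, max 1 ‖τ w‖ := by
      have h4 : ∏ τ ∈ Finset.univ.erase σ, (1 : ℝ) ≤ ∏ τ ∈ Finset.univ.erase σ, max 1 ‖τ w‖ :=
        Finset.prod_le_prod (fun _ _ => zero_le_one) fun _ _ => le_max_left _ _
      simpa using h4
    exact le_mul_of_one_le_right (zero_le_one.trans (le_max_left _ _)) h3
  have hP2 : (1 : ℝ) ≤ ∏ σ : K →ₐ[ℚ] ℂ, max 1 ‖σ w‖ := by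
    have h4 : ∏ σ : K →ₐ[ℚ] ℂ, (1 : ℝ) ≤ ∏ σ : K →ₐ[ℚ] ℂ, max 1 ‖σ w‖ :=
      Finset.prod_le_prod (fun _ _ => zero_le_one) fun _ _ => le_max_left _ _
    simpa using h4
  have ha1 : (1 : ℝ) ≤ a := by exact_mod_cast ha
  have hn1 : (1 : ℝ) ≤ n := by exact_mod_cast hn
  have hfinal : (a : ℝ) ^ k * ∏ σ : K →ₐ[ℚ] ℂ, max 1 ‖σ w‖ ≤
      Real.exp (D * (M + k * Real.log n)) := by
    have e1 : Real.exp (D * (M + k * Real.log n)) = Real.exp M ^ D * ((n : ℝ) ^ D) ^ k := by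
      rw [mul_add, Real.exp_add, Real.exp_nat_mul]
      congr 1
      have h5 : (D : ℝ) * (k * Real.log n) = ((D * k : ℕ) : ℝ) * Real.log n := by
        push_cast
        ring
      rw [h5, Real.exp_nat_mul, Real.exp_log (by linarith), pow_mul]
    rw [e1]
    calc (a : ℝ) ^ k * ∏ σ : K →ₐ[ℚ] ℂ, max 1 ‖σ w‖
        ≤ (a : ℝ) ^ k * (Real.exp M ^ D * |(r : ℝ)| ^ k) :=
          mul_le_mul_of_nonneg_left hPi (by positivity)
      _ = Real.exp M ^ D * ((a : ℝ) * |(r : ℝ)|) ^ k := by rw [mul_pow]; ring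
      _ ≤ Real.exp M ^ D * ((n : ℝ) ^ D) ^ k :=
          mul_le_mul_of_nonneg_left (pow_le_pow_left₀ (by positivity) har k) (by positivity)
  have hak : (a : ℝ) ≤ (a : ℝ) ^ k := le_self_pow₀ ha1 hk.ne'
  refine ⟨hy, ⟨a, ha, ?_, hint⟩, ?_⟩
  · refine hak.trans (le_trans ?_ hfinal)
    exact le_mul_of_one_le_right (by positivity) hP2
  · intro σ
    have h2 : ‖σ ⟨y, hy⟩‖ ≤ max 1 ‖(RingHom.toRatAlgHom σ) w‖ := le_max_right _ _
    refine h2.trans ((hP1 _).trans (le_trans ?_ hfinal))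
    exact le_mul_of_one_le_left (zero_le_one.trans hP2) (one_le_pow₀ ha1)

end Pool.Agent.LGO.PC
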