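import Mathlib
import Pool.Agent.LGO.PC.BdLoc
import Pool.Agent.LGO.PA.LinkB
import Pool.Agent.LGO.U.BArch
import Pool.Agent.LGO.U.BGal
import Pool.Agent.LGO.U.BMem

/-!
# LGO/PC: heights of isogenous numbers, all places

`ht_bd`: `x, y ∈ K` isogenous, `x` not CM, `N = mdeg x y`.  If `x` has a denominator `≤ exp M` and house `≤ exp M` then the denominator and the house
of `y` are at most `exp (C [K : ℚ] (M + 1 + log N))`.

PROOF.  The number `B` of `(x, y)` is in `K`.  `b_size` at all finite places and `B_arch` at all infinite places, `bd_of_loc`.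
-/

namespace Pool.Agent.LGO.PC

open Pool.Agent.Hhelper14.ZP Pool.Agent.Hhelper14.ZPL Pool.Agent.LGO Pool.Agent.LGO.U
  Pool.Agent.LGO.PA

private theorem HtBd_pow {u : ℝ} (hu : 1 ≤ u) :
    (1 + Real.log u) ^ 12 ≤ (Nat.factorial 12 : ℝ) * Real.exp 1 * u := by
  have h0 : 0 ≤ 1 + Real.log u := by
    have := Real.log_nonneg hu
    linarith
  have h1 := Real.pow_div_factorial_le_exp _ h0 12
  rw [Real.exp_add, Real.exp_log (by linarith), div_le_iff₀ (by positivity)] at h1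
  linarith

private theorem HtBd_real {C N b mx my : ℝ} (hC : 1 ≤ C) (hN : 1 ≤ N) (hmx : 1 ≤ mx)
    (hmy : 1 ≤ my) (h : N ^ 6 * my ≤ C * (1 + Real.log (mx * my)) ^ 6 * (b * mx)) :
    my ≤ C ^ 2 * ((Nat.factorial 12 : ℝ) * Real.exp 1) * b ^ 2 * mx ^ 3 := by
  have hu : 1 ≤ mx * my := one_le_mul_of_one_le_of_one_le hmx hmy
  have h1 : my ≤ C * (1 + Real.log (mx * my)) ^ 6 * (b * mx) :=
    (le_mul_of_one_le_left (by linarith) (one_le_pow₀ hN)).trans h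
  have h2 : my ^ 2 ≤ (C * (1 + Real.log (mx * my)) ^ 6 * (b * mx)) ^ 2 :=
    pow_le_pow_left₀ (by linarith) h1 2
  have h3 : (C * (1 + Real.log (mx * my)) ^ 6 * (b * mx)) ^ 2 =
      C ^ 2 * b ^ 2 * mx ^ 2 * (1 + Real.log (mx * my)) ^ 12 := by ring
  have h4 : C ^ 2 * b ^ 2 * mx ^ 2 * (1 + Real.log (mx * my)) ^ 12 ≤
      C ^ 2 * b ^ 2 * mx ^ 2 * ((Nat.factorial 12 : ℝ) * Real.exp 1 * (mx * my)) :=
    mul_le_mul_of_nonneg_left (HtBd_pow hu) (by positivity)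
  have h5 : my * my ≤ my * (C ^ 2 * ((Nat.factorial 12 : ℝ) * Real.exp 1) * b ^ 2 * mx ^ 3) := by
    calc my * my = my ^ 2 := by ring
      _ ≤ _ := h2
      _ = _ := h3
      _ ≤ _ := h4
      _ = _ := by ring
  exact le_of_mul_le_mul_left h5 (by linarith)

/-- **the size of the second invariant at an infinite place** -/
theorem ht_arch : ∃ C : ℝ, 1 ≤ C ∧ ∀ x y B : ℂ, IsB x y B → NCM x →
    max 1 ‖y‖ ≤ C * ‖B‖ ^ 2 * max 1 ‖x‖ ^ 3 := by
  obtain ⟨C, hC, hb⟩ := B_arch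
  have hf1 : (1 : ℝ) ≤ (Nat.factorial 12 : ℝ) := by exact_mod_cast Nat.factorial_pos 12
  have he1 : (1 : ℝ) ≤ Real.exp 1 := Real.one_le_exp zero_le_one
  refine ⟨C ^ 2 * ((Nat.factorial 12 : ℝ) * Real.exp 1), ?_, fun x y B hB hx => ?_⟩
  · have h1 : (1 : ℝ) ≤ C ^ 2 := one_le_pow₀ hC
    exact one_le_mul_of_one_le_of_one_le h1 (one_le_mul_of_one_le_of_one_le hf1 he1)
  have hN : (1 : ℝ) ≤ mdeg x y := by exact_mod_cast mdeg_pos hB.isog
  have hmx : (1 : ℝ) ≤ max 1 ‖x‖ := le_max_left _ _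
  have hmy : (1 : ℝ) ≤ max 1 ‖y‖ := le_max_left _ _
  have hx1 : ‖x‖ ≤ max 1 ‖x‖ := le_max_right _ _
  have hy1 : ‖y‖ ≤ max 1 ‖y‖ := le_max_right _ _
  have hu : 1 ≤ max 1 ‖x‖ * max 1 ‖y‖ := one_le_mul_of_one_le_of_one_le hmx hmy
  have hlog := Real.log_nonneg hu
  have hexp : max 1 ‖x‖ * max 1 ‖y‖ ≤ Real.exp (1 + Real.log (max 1 ‖x‖ * max 1 ‖y‖)) := by
    rw [Real.exp_add, Real.exp_log (by linarith)]
    exact le_mul_of_one_le_left (by linarith) he1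
  have hxm : max 1 ‖x‖ ≤ max 1 ‖x‖ * max 1 ‖y‖ := le_mul_of_one_le_right (by linarith) hmy
  have hym : max 1 ‖y‖ ≤ max 1 ‖x‖ * max 1 ‖y‖ := le_mul_of_one_le_left (by linarith) hmx
  have h1 := (hb x y B hB hx (1 + Real.log (max 1 ‖x‖ * max 1 ‖y‖)) (by linarith)
    (by linarith) (by linarith)).2
  exact HtBd_real hC hN hmx hmy h1

/-- **heights of isogenous numbers, all places** -/
theorem ht_bd : ∃ C : ℝ, 1 ≤ C ∧ ∀ (K : IntermediateField ℚ ℂ) [FiniteDimensional ℚ K] (M : ℝ)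
    (x y : ℂ), Bd K M x → y ∈ K → NCM x → (∃ N, 0 < N ∧ IsogDeg N x y) →
      Bd K (C * Module.finrank ℚ K * (M + 1 + Real.log (mdeg x y))) y := by
  obtain ⟨C₀, hC₀, harch⟩ := ht_arch
  obtain ⟨c, hc⟩ : ∃ c : ℕ, c = (4 * 6 ^ 12) ^ 6 := ⟨_, rfl⟩
  have hcpos : 0 < c := by rw [hc]; positivity
  have hc1 : (1 : ℝ) ≤ c := by exact_mod_cast hcpos
  have hlc : 0 ≤ Real.log c := Real.log_nonneg hc1
  have hlC : 0 ≤ Real.log C₀ := Real.log_nonneg hC₀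
  refine ⟨Real.log C₀ + 2 * Real.log c + 24, by linarith, ?_⟩
  intro K _ M x y hx hy hN hiso
  obtain ⟨B, hB⟩ := exists_B hiso
  have hBK : B ∈ K := hB.mem hN K hx.mem hy
  have hB0 : B ≠ 0 := hB.ne_zero
  obtain ⟨n, hn, hnM, hint⟩ := hx.den
  have hM : 0 ≤ M := hx.nonneg
  have hmd : 0 < mdeg x y := mdeg_pos hiso
  have hmd1 : (1 : ℝ) ≤ mdeg x y := by exact_mod_cast hmd
  have hD : (1 : ℝ) ≤ Module.finrank ℚ K := by exact_mod_cast Module.finrank_pos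
  have h := bd_of_loc K hy hBK hB0 (n := c * mdeg x y ^ 12 * n) (by positivity)
    (M := Real.log C₀ + 3 * M) (k := 2) two_pos ?_ ?_
  · refine h.mono ?_
    have hn1 : (1 : ℝ) ≤ n := by exact_mod_cast hn
    have e1 : Real.log ((c * mdeg x y ^ 12 * n : ℕ) : ℝ) =
        Real.log c + 12 * Real.log (mdeg x y) + Real.log n := by
      push_cast
      rw [Real.log_mul (by positivity) (by positivity), Real.log_mul (by positivity) (by positivity),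
        Real.log_pow]
      push_cast
      ring
    have e2 : Real.log n ≤ M := by
      rw [Real.log_le_iff_le_exp (by linarith)]
      exact hnM
    have e3 : 0 ≤ Real.log (mdeg x y) := Real.log_nonneg hmd1
    rw [e1]
    have e4 : Real.log C₀ + 3 * M + (2 : ℕ) * (Real.log c + 12 * Real.log (mdeg x y) + Real.log n) ≤
        (Real.log C₀ + 2 * Real.log c + 24) * (M + 1 + Real.log (mdeg x y)) := by
      push_cast
      nlinarith [mul_nonneg hlc hM, mul_nonneg hlC hM, mul_nonneg hlc e3, mul_nonneg hlC e3]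
    calc (Module.finrank ℚ K : ℝ) * (Real.log C₀ + 3 * M + (2 : ℕ) *
          (Real.log c + 12 * Real.log (mdeg x y) + Real.log n))
        ≤ (Module.finrank ℚ K : ℝ) * ((Real.log C₀ + 2 * Real.log c + 24) *
          (M + 1 + Real.log (mdeg x y))) := mul_le_mul_of_nonneg_left e4 (by linarith)
      _ = _ := by ring
  · intro p _ φ
    obtain ⟨-, h2⟩ := b_size φ hB hN
    have h3 : ‖(n : ℂ_[p])‖ * max 1 ‖φ x‖ ≤ 1 := by
      rw [mul_max_of_nonneg _ _ (norm_nonneg _), mul_one]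
      refine max_le (Pool.Agent.Hhelper14.ZP.norm_natCast_le n) ?_
      have h4 := norm_le_one_of_integral φ hint
      rwa [map_mul, map_natCast, norm_mul] at h4
    have e0 : ‖((c * mdeg x y ^ 12 * n : ℕ) : ℂ_[p])‖ =
        ‖((4 * 6 ^ 12) ^ 6 : ℂ_[p])‖ * ‖((mdeg x y : ℕ) : ℂ_[p])‖ ^ 12 * ‖(n : ℂ_[p])‖ := by
      have e00 : ((c : ℕ) : ℂ_[p]) = (4 * 6 ^ 12) ^ 6 := by
        rw [hc]
        norm_num
      rw [Nat.cast_mul, Nat.cast_mul, Nat.cast_pow, norm_mul, norm_mul, e00,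
        norm_pow ((mdeg x y : ℕ) : ℂ_[p])]
    rw [e0]
    have hn0 : 0 ≤ ‖(n : ℂ_[p])‖ := norm_nonneg _
    have hB1 : 0 ≤ ‖φ B‖ := norm_nonneg _
    calc ‖((4 * 6 ^ 12) ^ 6 : ℂ_[p])‖ * ‖((mdeg x y : ℕ) : ℂ_[p])‖ ^ 12 * ‖(n : ℂ_[p])‖ * max 1 ‖φ y‖
        = (‖((4 * 6 ^ 12) ^ 6 : ℂ_[p])‖ * (‖((mdeg x y : ℕ) : ℂ_[p])‖ ^ 12 * max 1 ‖φ y‖)) *
          ‖(n : ℂ_[p])‖ := by ring
      _ ≤ (‖φ B‖ * max 1 ‖φ x‖) * ‖(n : ℂ_[p])‖ := mul_le_mul_of_nonneg_right h2 hn0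
      _ = ‖φ B‖ * (‖(n : ℂ_[p])‖ * max 1 ‖φ x‖) := by ring
      _ ≤ ‖φ B‖ * 1 := mul_le_mul_of_nonneg_left h3 hB1
      _ = ‖φ B‖ := mul_one _
  · intro s
    have h1 := harch (s x) (s y) (s B) (hB.map hN s) (hN.map s)
    have h2 : max 1 ‖s x‖ ≤ Real.exp M := max_le (Real.one_le_exp hM) (hx.aut s)
    have h3 : max 1 ‖s x‖ ^ 3 ≤ Real.exp (3 * M) := by
      have h4 := pow_le_pow_left₀ (zero_le_one.trans (le_max_left 1 ‖s x‖)) h2 3
      rw [← Real.exp_nat_mul] at h4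
      exact_mod_cast h4
    have hCpos : 0 < C₀ := by linarith
    rw [Real.exp_add, Real.exp_log hCpos]
    calc max 1 ‖s y‖ ≤ C₀ * ‖s B‖ ^ 2 * max 1 ‖s x‖ ^ 3 := h1
      _ ≤ C₀ * ‖s B‖ ^ 2 * Real.exp (3 * M) := mul_le_mul_of_nonneg_left h3 (by positivity)
      _ = _ := by ring

end Pool.Agent.LGO.PC
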